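import Mathlib
import Pool.Agent.H536.LS.Fin
import Pool.Agent.H522.LW6

/-!
# The exact times of the primes in Cunningham sequences of the first kind, for sets of times up to `log p`

Let `c p t = 2 ^ t * (p + 1) - 1`. Call a finite set `F` of times with least element `f` exact if at least `2 ^ T`
primes `p` with `2 ^ T ≤ p ≤ 2 ^ (A * T)` have the following property: among the numbers `c p t` with
`f + t ≤ T ^ (21 / 20)` the primes are exactly those with `f + t ∈ F`, and `p` itself is not preceded by a prime.
For every `m` there are `N` and `A` such that for all large `T` and for EVERY set `E` of at least `N` times in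
`[1, T]`:

* (1) at least `(|E| / N) ^ m` sets `F ⊆ E` with `m ≤ |F| ≤ N` are exact;
* (2) a positive proportion of the `m`-element sets `D ⊆ E`, at least `(|E| / N) ^ m` of them, has all patterns: every
  `P ⊆ D` is the intersection with `D` of an exact set `F ⊆ E`, `m ≤ |F| ≤ N`.

So the sets of times may depend on `p`, the number of the primes is bounded although the times lie in a range of length
`log p`, and nothing else is prime up to a time of larger order than `log p`.
There is no exceptional modulus, as the conductor of a real primitive character is not a power of `2`; the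
prime which has to be avoided in the congruences (if a Siegel zero exists) is avoided.
-/

namespace Pool.Agent.Results.MP_77cbc6_nt.ExactTimesUpToLog

open Finset

/-- the terms of the Cunningham sequence of the first kind generated by `p` -/
def c (p t : ℕ) : ℕ := 2 ^ t * (p + 1) - 1

/-- `F` has a least element `f`, and for at least `2 ^ T` primes `p` in `[2 ^ T, 2 ^ (A * T)]` which are not preceded by
a prime, the set of the times `t` with `f + t ≤ T ^ (21 / 20)` and `c p t` prime is `F - f` -/
def Exact (A T : ℕ) (F : Finset ℕ) : Prop :=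
  ∃ f ∈ F, (∀ e ∈ F, f ≤ e) ∧
    ∃ S : Finset ℕ, 2 ^ T ≤ #S ∧ ∀ p ∈ S, p.Prime ∧ 2 ^ T ≤ p ∧ p ≤ 2 ^ (A * T) ∧
      (∀ t : ℕ, (f + t) ^ 20 ≤ T ^ 21 → ((c p t).Prime ↔ f + t ∈ F)) ∧
      ∀ q t : ℕ, q.Prime → 1 ≤ t → c q t ≠ p

open Classical in
theorem result (m : ℕ) (hm : 1 ≤ m) : ∃ N A T₀ : ℕ, 1 ≤ N ∧ ∀ T : ℕ, T₀ ≤ T → ∀ E : Finset ℕ, E ⊆ Icc 1 T →
    N ≤ #E →
      -- (1) the number of the exact sets
      ((#E : ℝ) / N) ^ m ≤ #(E.powerset.filter (fun F => m ≤ #F ∧ #F ≤ N ∧ Exact A T F)) ∧
      -- (2) the number of the sets of `m` times with all patterns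
      ((#E : ℝ) / N) ^ m ≤ #(E.powerset.filter (fun D => #D = m ∧ ∀ P ⊆ D, ∃ F ⊆ E,
        F ∩ D = P ∧ m ≤ #F ∧ #F ≤ N ∧ Exact A T F)) :=
  Pool.Agent.H522.LW.patterns_of_local (fun A T F => Exact A T F) Pool.Agent.H536.LS.first m hm

end Pool.Agent.Results.MP_77cbc6_nt.ExactTimesUpToLog
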