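import Mathlib
import Pool.Agent.H522.InterpInit

/-!
# The first `k` prime times of Cunningham orbits of the first kind inside small sets of times

Let `c_t(n) = 2 ^ t (n + 1) - 1`, the term at time `t` of the orbit of `n` under `x ↦ 2 x + 1`. For a finite set `H` of
times we say that `H` is realised if for many `n` the first `|H|` times `t` with `c_t(n)` prime are exactly the elements
of `H`, i.e. `c_t(n)` is prime for `t ∈ H` and composite (or `≤ 1`) for all other `t ≤ max H`. With the first element `b` of `H` and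
the prime `p = c_b(n)` this prescribes which of the numbers `p, 2 p + 1, 4 p + 3, …` are prime, up to the time
`max H - b`; in particular it prescribes the exact length of the chain of `p` if it is less than `k`. Conjecturally all
finite sets are realised; the question is about `H = {b, …, b + k - 1}`.

Let `T` be any set of times with `log |T| ≥ (4 + δ) k + C`. By Maynard and Tao `T` contains a realised `H` with `k`
elements. We ask for the proportion of the `t`-element sets `W ⊆ T` which contain a realised `k`-element set and show,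
uniformly in `T`, `k` and `t`:

* (1) the proportion of the exceptions is at most `2 exp (- t / (C k ^ 2))`: almost all `t`-element sets of times contain
  a realised `k`-element set as soon as `t / k ^ 2` is large;
* (2) for all `t ≥ k` the proportion is at least `(t / (C (t + k ^ 2))) ^ k`; for `t = k` this says that the proportion
  of at least `exp (- k log k - C' k)` of ALL the `k`-element sets `H ⊆ T` is realised.

Method: bounds for all the correlations of the primes in the measure of Maynard and Tao (`Pool.Agent.H522`).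
-/

set_option autoImplicit false

open Finset Filter

namespace Pool.Agent.Results.MP_77cbc6_nt.FirstPrimeTimes

/-- `P n` holds for many `n`: for every `η > 0` there are arbitrarily large `x` such that it holds for at least
`x ^ (1 - η)` of the natural numbers `n ≤ x` -/
def Many (P : ℕ → Prop) : Prop := ∀ η : ℝ, 0 < η → ∃ᶠ x : ℝ in atTop,
  x ^ (1 - η) ≤ (Set.ncard {n : ℕ | (n : ℝ) ≤ x ∧ P n} : ℝ)

/-- for many `n` the elements of `H` are exactly the first `|H|` times `t` for which `2 ^ t (n + 1) - 1` is prime -/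
def Realised (H : Finset ℕ) : Prop :=
  Many fun n => ∀ t ≤ H.sup id, ((2 ^ t * (n + 1) - 1).Prime ↔ t ∈ H)

/-- **The first `k` prime times of Cunningham orbits inside small sets of times.** -/
theorem result (δ : ℝ) (hδ : 0 < δ) : ∃ C : ℝ, 0 < C ∧ ∀ (k : ℕ) (T : Finset ℕ), 1 ≤ k →
    (4 + δ) * k + C ≤ Real.log T.card → ∀ t : ℕ, t ≤ T.card →
    -- (1) the exceptions
    (Set.ncard {W : Finset ℕ | W ⊆ T ∧ W.card = t ∧ ¬ ∃ H : Finset ℕ, H ⊆ W ∧ H.card = k ∧ Realised H} : ℝ) ≤
      2 * Real.exp (-(t / (C * (k : ℝ) ^ 2))) * (T.card.choose t : ℝ) ∧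
    -- (2) the lower bound for all `t ≥ k`
    (k ≤ t → ((t : ℝ) / (C * (t + (k : ℝ) ^ 2))) ^ k * (T.card.choose t : ℝ) ≤
      (Set.ncard {W : Finset ℕ | W ⊆ T ∧ W.card = t ∧ ∃ H : Finset ℕ, H ⊆ W ∧ H.card = k ∧ Realised H} : ℝ)) := by
  classical
  obtain ⟨C₁, hC₁, h1⟩ := Pool.Agent.H522.almost_all_deltaG δ hδ
  have hsm := Pool.Agent.H522.hasSM_E (fun t : ℕ => 2 ^ t) (fun t => 2 ^ t - 1)
  have hform : ∀ t n : ℕ, 2 ^ t * n + (2 ^ t - 1) = 2 ^ t * (n + 1) - 1 := by
    intro t n
    have h1 : 1 ≤ 2 ^ t := Nat.one_le_two_pow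
    rw [Nat.mul_succ]
    omega
  -- initial segments of exact patterns are realised
  have hex : ∀ P H : Finset ℕ, Pool.Agent.H522.ExactL (fun t : ℕ => 2 ^ t) (fun t => 2 ^ t - 1) P → H ⊆ P →
      H.Nonempty → (∀ b ∈ P, ∀ s ∈ H, b ≤ s → b ∈ H) → Realised H := by
    intro P H hP hHP hne hseg η hη
    refine (hP (Finset.range (H.sup id + 1)) η hη).mono fun x hx => hx.trans ?_
    have h1 : {n : ℕ | (n : ℝ) ≤ x ∧ ∀ i ∈ Finset.range (H.sup id + 1),
        ((2 ^ i * n + (2 ^ i - 1)).Prime ↔ i ∈ P)} ⊆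
        {n : ℕ | (n : ℝ) ≤ x ∧ ∀ t ≤ H.sup id, ((2 ^ t * (n + 1) - 1).Prime ↔ t ∈ H)} := by
      rintro n ⟨hn1, hn2⟩
      refine ⟨hn1, fun t ht => ?_⟩
      rw [← hform, hn2 t (Finset.mem_range.2 (by omega))]
      refine ⟨fun htP => ?_, fun htH => hHP htH⟩
      obtain ⟨s, hs, hse⟩ := Finset.exists_mem_eq_sup H hne id
      refine hseg t htP s hs ?_
      rw [hse] at ht
      exact ht
    exact_mod_cast Set.ncard_le_ncard h1 (Pool.Agent.H522.finite_le _ x)
  have hinit : ∀ k : ℕ, 1 ≤ k → ∀ P : Finset ℕ, Pool.Agent.H522.ExactL (fun t : ℕ => 2 ^ t) (fun t => 2 ^ t - 1) P →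
      k ≤ P.card → ∃ H, H ⊆ P ∧ H.card = k ∧ Realised H := by
    intro k hk P hP hkP
    obtain ⟨H, h2, h3, h4⟩ := Pool.Agent.H522.initSeg k P hkP
    exact ⟨H, h2, h3, hex P H hP h2 (by rw [← Finset.card_pos]; omega) h4⟩
  refine ⟨C₁ + 10 ^ 15 + 5, by positivity, ?_⟩
  intro k T hk hT t ht
  have hk' : (1 : ℝ) ≤ k := by exact_mod_cast hk
  have hexp : Real.exp (-((t : ℝ) / (C₁ * (k : ℝ) ^ 2))) ≤
      Real.exp (-((t : ℝ) / ((C₁ + 10 ^ 15 + 5) * (k : ℝ) ^ 2))) := by
    apply Real.exp_le_exp.2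
    apply neg_le_neg
    apply div_le_div_of_nonneg_left (Nat.cast_nonneg _) (by positivity)
    apply mul_le_mul_of_nonneg_right _ (by positivity)
    linarith [show (0 : ℝ) < 10 ^ 15 by norm_num]
  constructor
  · have h2 := h1 ℕ _ _ hsm k T hk (Pool.Agent.H522.okE_first T)
      (by linarith [show (0 : ℝ) < 10 ^ 15 by norm_num]) t ht
    have h3 : Set.ncard {W : Finset ℕ | W ⊆ T ∧ W.card = t ∧ ¬ ∃ H : Finset ℕ, H ⊆ W ∧ H.card = k ∧ Realised H} ≤
        ((T.powersetCard t).filter (Pool.Agent.H522.BadG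
          (Pool.Agent.H522.ExactL (fun t : ℕ => 2 ^ t) (fun t => 2 ^ t - 1)) k)).card := by
      rw [← Set.ncard_coe_finset]
      refine Set.ncard_le_ncard ?_ (Finset.finite_toSet _)
      rintro W ⟨hW1, hW2, hW3⟩
      rw [Finset.mem_coe, Finset.mem_filter, Finset.mem_powersetCard]
      refine ⟨⟨hW1, hW2⟩, ?_⟩
      rintro ⟨B, hB1, hB2, hB3⟩
      obtain ⟨H, h4, h5, h6⟩ := hinit k hk B hB3 hB2
      exact hW3 ⟨H, h4.trans hB1, h5, h6⟩
    have h4 : (Set.ncard {W : Finset ℕ | W ⊆ T ∧ W.card = t ∧ ¬ ∃ H : Finset ℕ, H ⊆ W ∧ H.card = k ∧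
        Realised H} : ℝ) ≤ (((T.powersetCard t).filter (Pool.Agent.H522.BadG
          (Pool.Agent.H522.ExactL (fun t : ℕ => 2 ^ t) (fun t => 2 ^ t - 1)) k)).card : ℝ) := by
      exact_mod_cast h3
    refine h4.trans (le_trans (le_of_eq ?_) (h2.trans ?_))
    · congr!
    · apply mul_le_mul_of_nonneg_right _ (Nat.cast_nonneg _)
      exact mul_le_mul_of_nonneg_left hexp (by norm_num)
  · intro hkt
    have h2 := Pool.Agent.H522.interp_initG _ _ Realised hsm k (hinit k hk) T hk (Pool.Agent.H522.okE_first T)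
      (by
        have h5 : (0 : ℝ) ≤ δ * k := by positivity
        linarith [show (0 : ℝ) < 10 ^ 15 by norm_num]) t hkt ht
    refine le_trans ?_ (h2.trans ?_)
    · apply mul_le_mul_of_nonneg_right _ (Nat.cast_nonneg _)
      apply pow_le_pow_left₀ (by positivity)
      apply div_le_div_of_nonneg_left (Nat.cast_nonneg _) (by positivity)
      apply mul_le_mul_of_nonneg_right _ (by positivity)
      linarith
    · rw [← Set.ncard_coe_finset, Nat.cast_le]
      refine Set.ncard_le_ncard ?_ ((T.powerset.finite_toSet).subset fun P hP =>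
        Finset.mem_coe.2 (Finset.mem_powerset.2 hP.1))
      intro W hW
      rw [Finset.mem_coe, Finset.mem_filter, Finset.mem_powersetCard] at hW
      exact ⟨hW.1.1, hW.1.2, hW.2⟩

end Pool.Agent.Results.MP_77cbc6_nt.FirstPrimeTimes
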