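import Mathlib
import Pool.Agent.H569.TR6

/-!
# Prime times of Cunningham chains along infinite trees

Words are finite words over the letters `0, ..., r - 1`; they are the nodes of the tree in which every node `s` has
the `r` successors `s ++ [i]`. A strong subtree of infinite height is given by an embedding `e` of the tree into
itself which sends the words of length `k` to words of one length `n k`, `n 0 < n 1 < ...`, such that `e (w ++ [i])`
begins with `e w ++ [i]` for each letter `i`. `c t n = 2 ^ t (n + 1) - 1` is the `t`-th term of the first-kind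
Cunningham sequence of `n`.

* (1) Let `A s` be an arbitrary infinite set of times, for every word `s`. There are a strong subtree `e` of infinite
  height and different times `t w ∈ A (e w)` which belong to one set `S` of times such that for every `N` there are
  infinitely many `n` for which the prime terms among `c 0 n, ..., c N n` are exactly those at the times of `S`.
* (2) Let `q ↦ a i * q + b i`, `i < r`, be primitive affine maps, `a i ≥ 1`, which generate a free semigroup. There is
  a set `G` of words, which contains the empty word and an infinite `r`-ary tree of words `e w`, `e [] = []`, such that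
  for every `N` there are infinitely many primes `p` for which, among all the numbers obtained from `p` by the maps
  along the words of length at most `N`, exactly those of the words in `G` are primes.
* (3) The maps `q ↦ 2 q + 1` (Cunningham chains of the first kind) and `q ↦ 2 q - 1` (of the second kind) generate a
  free semigroup; so (2) holds for the mixed chains.

The proof. The finitely additive measures of the starting files (`Pool.Agent.H361R2.Inf`) give one exact pattern which
meets at least `1 / 800` of the classes of forms placed at the words of length `l`, for infinitely many `l`. A set of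
words with a positive density on infinitely many levels contains a strong subtree of infinite height (the theorem of
Bicker and Voigt, proved in `Pool.Agent.H569.TR1`, ..., `TR6`).
-/

set_option autoImplicit false

namespace Pool.Agent.Results.MP_77cbc6_nt.InfiniteTreesOfChains

open Pool.Agent.H569.TR

/-- the `t`-th term of the first-kind Cunningham sequence of `n` -/
def c (t : ℕ) (n : ℤ) : ℤ := 2 ^ t * (n + 1) - 1

/-- strong subtrees of infinite height -/
def Strong {r : ℕ} (e : List (Fin r) → List (Fin r)) : Prop :=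
  (∃ n : ℕ → ℕ, StrictMono n ∧ ∀ w, (e w).length = n w.length) ∧ ∀ w i, (e w ++ [i]) <+: e (w ++ [i])

/-- the composition `x ↦ A x + B` of the maps `x ↦ a i * x + b i` along a word, the first letter being applied
first -/
def comp {r : ℕ} (a b : Fin r → ℤ) (V : List (Fin r)) : ℤ × ℤ :=
  V.foldl (fun f i => (a i * f.1, a i * f.2 + b i)) (1, 0)

theorem prime_iff (z : ℤ) : z.toNat.Prime ↔ ∃ p : ℕ, p.Prime ∧ z = p := by
  constructor
  · intro h
    refine ⟨z.toNat, h, ?_⟩
    have := h.pos
    omega
  · rintro ⟨p, hp, rfl⟩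
    simpa using hp

theorem comp_snoc {r : ℕ} (a b : Fin r → ℤ) (V : List (Fin r)) (i : Fin r) :
    comp a b (V ++ [i]) = (a i * (comp a b V).1, a i * (comp a b V).2 + b i) := by
  simp [comp, List.foldl_append]

theorem comp_append {r : ℕ} (a b : Fin r → ℤ) (U V : List (Fin r)) :
    comp a b (U ++ V) =
      ((comp a b V).1 * (comp a b U).1, (comp a b V).1 * (comp a b U).2 + (comp a b V).2) := by
  induction V using List.reverseRecOn with
  | nil => simp [comp]
  | append_singleton V i ih =>
    rw [← List.append_assoc, comp_snoc, comp_snoc, ih]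
    ext <;> simp <;> ring

theorem comp_pos {r : ℕ} (a b : Fin r → ℤ) (ha : ∀ i, 1 ≤ a i) (V : List (Fin r)) : 1 ≤ (comp a b V).1 := by
  induction V using List.reverseRecOn with
  | nil => simp [comp]
  | append_singleton V i ih =>
    rw [comp_snoc]
    have h1 := ha i
    show 1 ≤ a i * (comp a b V).1
    nlinarith

theorem even_aux (V : List (Fin 2)) : (2 : ℤ) ∣ (comp ![2, 2] ![1, -1] V).2 + (comp ![2, 2] ![1, -1] V).1 - 1 := by
  induction V using List.reverseRecOn with
  | nil => simp [comp]
  | append_singleton V i ih =>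
    rw [comp_snoc]
    fin_cases i
    · simp; omega
    · simp; omega

theorem free : Function.Injective (comp (r := 2) ![2, 2] ![1, -1]) := by
  have h2 : ∀ i : Fin 2, (1 : ℤ) ≤ (![2, 2] : Fin 2 → ℤ) i := by
    intro i
    fin_cases i <;> simp
  intro V
  induction V using List.reverseRecOn with
  | nil =>
    intro W h
    induction W using List.reverseRecOn with
    | nil => rfl
    | append_singleton W j _ =>
      exfalso
      rw [comp_snoc] at h
      have h1 := congrArg Prod.fst h
      have h3 := comp_pos ![2, 2] ![1, -1] h2 W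
      have h4 : (![2, 2] : Fin 2 → ℤ) j = 2 := by fin_cases j <;> simp
      simp only [h4] at h1
      have h5 : (comp (r := 2) ![2, 2] ![1, -1] []).1 = 1 := rfl
      omega
  | append_singleton V i ih =>
    intro W h
    induction W using List.reverseRecOn with
    | nil =>
      exfalso
      rw [comp_snoc] at h
      have h1 := congrArg Prod.fst h
      have h3 := comp_pos ![2, 2] ![1, -1] h2 V
      have h4 : (![2, 2] : Fin 2 → ℤ) i = 2 := by fin_cases i <;> simp
      simp only [h4] at h1
      have h5 : (comp (r := 2) ![2, 2] ![1, -1] []).1 = 1 := rfl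
      omega
    | append_singleton W j _ =>
      rw [comp_snoc, comp_snoc] at h
      have h1 := congrArg Prod.fst h
      have h1' := congrArg Prod.snd h
      have h4 : (![2, 2] : Fin 2 → ℤ) i = 2 := by fin_cases i <;> simp
      have h5 : (![2, 2] : Fin 2 → ℤ) j = 2 := by fin_cases j <;> simp
      simp only [h4, h5] at h1 h1'
      have e1 := even_aux V
      have e2 := even_aux W
      have hij : i = j := by
        fin_cases i <;> fin_cases j <;> simp at h1' ⊢ <;> omega
      subst hij
      have : V = W := ih (Prod.ext (by omega) (by omega))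
      rw [this]

theorem times (r : ℕ) (hr : 1 ≤ r) (A : List (Fin r) → Set ℕ) (hA : ∀ s, (A s).Infinite) :
    ∃ (e : List (Fin r) → List (Fin r)) (t : List (Fin r) → ℕ) (S : Set ℕ),
      Strong e ∧ Function.Injective t ∧ (∀ w, t w ∈ A (e w) ∧ t w ∈ S) ∧ (∀ u ∈ S, ∃ s, u ∈ A s) ∧
      ∀ N : ℕ, {n : ℕ | ∀ u ≤ N, ((∃ q : ℕ, q.Prime ∧ c u n = q) ↔ u ∈ S)}.Infinite := by
  classical
  obtain ⟨fm, hfm⟩ : ∃ fm : ℕ → ℤ × ℤ, ∀ u, fm u = ((2 : ℤ) ^ u, (2 : ℤ) ^ u - 1) := ⟨_, fun _ => rfl⟩
  have hinj : Function.Injective fm := by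
    intro u v h
    rw [hfm, hfm] at h
    have h1 : (2 : ℤ) ^ u = 2 ^ v := congrArg Prod.fst h
    have h2 : (2 : ℕ) ^ u = 2 ^ v := by exact_mod_cast h1
    exact Nat.pow_right_injective (le_refl 2) h2
  obtain ⟨n, e, g, G, h1, h2, h3, h4, h5, h6, h7⟩ := forest r hr (fun s => fm '' A s)
    (fun s => (hA s).image hinj.injOn) (by
      rintro s g ⟨u, _, rfl⟩
      rw [hfm]
      refine ⟨?_, ⟨1, -1, by ring⟩⟩
      show (1 : ℤ) ≤ 2 ^ u
      exact one_le_pow₀ (by norm_num))
  choose t ht using fun w => (h5 w).1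
  refine ⟨e, t, {u | fm u ∈ G}, ⟨⟨n, h1, h2⟩, h3⟩, ?_, fun w => ⟨(ht w).1, ?_⟩, ?_, fun N => ?_⟩
  · intro w w' h
    apply h4
    rw [← (ht w).2, ← (ht w').2, h]
  · show fm (t w) ∈ G
    rw [(ht w).2]
    exact (h5 w).2
  · intro u hu
    obtain ⟨s, u', hu', hh⟩ := h6 _ hu
    exact ⟨s, hinj hh ▸ hu'⟩
  · refine (h7 ((Finset.range (N + 1)).image fm) ?_).mono ?_
    · intro x hx
      obtain ⟨u, _, rfl⟩ := Finset.mem_image.1 hx
      rw [hfm]
      show (1 : ℤ) ≤ 2 ^ u
      exact one_le_pow₀ (by norm_num)
    · intro x hx u hu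
      have h8 := hx (fm u) (Finset.mem_image_of_mem _ (Finset.mem_range.2 (by omega)))
      rw [prime_iff, hfm] at h8
      show _ ↔ fm u ∈ G
      rw [hfm, ← h8]
      have h9 : c u x = 2 ^ u * (x : ℤ) + (2 ^ u - 1) := by
        unfold c
        ring
      rw [h9]

theorem trees (r : ℕ) (hr : 1 ≤ r) (a b : Fin r → ℤ) (ha : ∀ i, 1 ≤ a i) (hab : ∀ i, IsCoprime (a i) (b i))
    (hfree : Function.Injective (comp a b)) (z : Fin r) :
    ∃ (e : List (Fin r) → List (Fin r)) (G : Set (List (Fin r))),
      e [] = [] ∧ (∀ w, e w ∈ G) ∧ (∀ w w', w.length < w'.length → (e w).length < (e w').length) ∧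
      (∀ w, ∃ k, ∀ i, (e w ++ List.replicate k z ++ [i]) <+: e (w ++ [i])) ∧
      ∀ N : ℕ, {p : ℕ | p.Prime ∧ ∀ V : List (Fin r), V.length ≤ N →
        ((∃ q : ℕ, q.Prime ∧ (comp a b V).1 * p + (comp a b V).2 = q) ↔ V ∈ G)}.Infinite := by
  classical
  obtain ⟨G, e, h1, h2, h3, h4⟩ := orbits r hr a b ha hab hfree z
  obtain ⟨R, hR⟩ : ∃ R, R = e [] := ⟨_, rfl⟩
  have hpre : ∀ w, R <+: e w := by
    intro w
    induction w using List.reverseRecOn with
    | nil => rw [hR]
    | append_singleton w i ih =>
      obtain ⟨k, hk⟩ := h3 w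
      refine ih.trans (List.IsPrefix.trans ?_ (hk i))
      rw [List.append_assoc]
      exact List.prefix_append _ _
  obtain ⟨e', he'⟩ : ∃ e' : List (Fin r) → List (Fin r), ∀ w, e' w = (e w).drop R.length := ⟨_, fun _ => rfl⟩
  have hE : ∀ w, R ++ e' w = e w := by
    intro w
    rw [he']
    exact List.prefix_iff_eq_append.1 (hpre w)
  have hlen : ∀ w, R.length + (e' w).length = (e w).length := by
    intro w
    rw [← hE w, List.length_append]
  refine ⟨e', {V | R ++ V ∈ G}, ?_, fun w => ?_, fun w w' hw => ?_, fun w => ?_, fun N => ?_⟩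
  · rw [he', hR, List.drop_length]
  · show R ++ e' w ∈ G
    rw [hE]
    exact h1 w
  · have h5 := h2 w w' hw
    have h6 := hlen w
    have h7 := hlen w'
    omega
  · obtain ⟨k, hk⟩ := h3 w
    refine ⟨k, fun i => ?_⟩
    have h5 := hk i
    rw [← hE w, ← hE (w ++ [i]), List.append_assoc, List.append_assoc] at h5
    rw [List.append_assoc]
    exact (List.prefix_append_right_inj R).1 h5
  · obtain ⟨T, hT⟩ : ∃ T : Finset (ℤ × ℤ), ∀ g, g ∈ T ↔ ∃ V : List (Fin r), V.length ≤ N ∧ comp a b (R ++ V) = g :=
      ⟨((List.finite_length_le (Fin r) N).image fun V => comp a b (R ++ V)).toFinset, fun g => by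
        simp [Set.Finite.mem_toFinset]⟩
    have h5 := h4 T (by
      intro g hg
      obtain ⟨V, _, rfl⟩ := (hT g).1 hg
      exact comp_pos a b ha _)
    obtain ⟨φ, hφ⟩ : ∃ φ : ℕ → ℕ, ∀ x : ℕ, φ x = ((comp a b R).1 * (x : ℤ) + (comp a b R).2).toNat := ⟨_, fun _ => rfl⟩
    have hRG : R ∈ G := by rw [hR]; exact h1 []
    have hprime : ∀ x : ℕ, (∀ g ∈ T, (Nat.Prime (g.1 * (x : ℤ) + g.2).toNat ↔ ∃ V ∈ G, g = orb a b V)) →
        (φ x).Prime ∧ (φ x : ℤ) = (comp a b R).1 * x + (comp a b R).2 := by
      intro x hx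
      have h6 := (hx (comp a b R) ((hT _).2 ⟨[], by simp, by rw [List.append_nil]⟩)).2 ⟨R, hRG, rfl⟩
      rw [← hφ] at h6
      refine ⟨h6, ?_⟩
      have := h6.pos
      rw [hφ] at this ⊢
      omega
    refine (h5.image (f := φ) ?_).mono ?_
    · intro x hx y hy hxy
      have h6 := (hprime x hx).2
      have h7 := (hprime y hy).2
      rw [hxy, h7] at h6
      have h8 := comp_pos a b ha R
      have h9 : (comp a b R).1 * ((y : ℤ) - x) = 0 := by linarith
      rcases mul_eq_zero.1 h9 with h10 | h10
      · omega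
      · omega
    · rintro p ⟨x, hx, rfl⟩
      obtain ⟨h6, h7⟩ := hprime x hx
      refine ⟨h6, fun V hV => ?_⟩
      have h8 := hx (comp a b (R ++ V)) ((hT _).2 ⟨V, hV, rfl⟩)
      rw [prime_iff] at h8
      have h9 : (comp a b V).1 * (φ x : ℤ) + (comp a b V).2 =
          (comp a b (R ++ V)).1 * x + (comp a b (R ++ V)).2 := by
        rw [h7, comp_append]
        ring
      rw [h9, h8]
      show _ ↔ R ++ V ∈ G
      constructor
      · rintro ⟨V', hV', hh⟩
        rwa [hfree hh]
      · intro h
        exact ⟨_, h, rfl⟩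

/-- (1) Trees of times of the first-kind sequences, (2) trees of iterates of affine maps which generate a free
semigroup, (3) the maps `2 q + 1` and `2 q - 1` are such maps. -/
theorem result :
    (∀ r : ℕ, 1 ≤ r → ∀ A : List (Fin r) → Set ℕ, (∀ s, (A s).Infinite) →
      ∃ (e : List (Fin r) → List (Fin r)) (t : List (Fin r) → ℕ) (S : Set ℕ),
        Strong e ∧ Function.Injective t ∧ (∀ w, t w ∈ A (e w) ∧ t w ∈ S) ∧ (∀ u ∈ S, ∃ s, u ∈ A s) ∧
        ∀ N : ℕ, {n : ℕ | ∀ u ≤ N, ((∃ q : ℕ, q.Prime ∧ c u n = q) ↔ u ∈ S)}.Infinite) ∧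
    (∀ r : ℕ, 1 ≤ r → ∀ a b : Fin r → ℤ, (∀ i, 1 ≤ a i) → (∀ i, IsCoprime (a i) (b i)) →
      Function.Injective (comp a b) → ∀ z : Fin r,
      ∃ (e : List (Fin r) → List (Fin r)) (G : Set (List (Fin r))),
        e [] = [] ∧ (∀ w, e w ∈ G) ∧ (∀ w w', w.length < w'.length → (e w).length < (e w').length) ∧
        (∀ w, ∃ k, ∀ i, (e w ++ List.replicate k z ++ [i]) <+: e (w ++ [i])) ∧
        ∀ N : ℕ, {p : ℕ | p.Prime ∧ ∀ V : List (Fin r), V.length ≤ N →
          ((∃ q : ℕ, q.Prime ∧ (comp a b V).1 * p + (comp a b V).2 = q) ↔ V ∈ G)}.Infinite) ∧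
    Function.Injective (comp (r := 2) ![2, 2] ![1, -1]) :=
  ⟨times, trees, free⟩

end Pool.Agent.Results.MP_77cbc6_nt.InfiniteTreesOfChains
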